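import Pool.Agent.Helper89.ME.CatDefs

/-!
# ME-C1: Kuratowski-Ulam and the product lemma (offer 1002)
-/

set_option autoImplicit false

namespace ME

open Encodable Set Filter Topology

/-- **Kuratowski-Ulam**, easy half -/
theorem kuratowski_ulam {X Y : Type} [TopologicalSpace X] [TopologicalSpace Y]
    [SecondCountableTopology Y] {V : Set (X × Y)} (ho : IsOpen V) (hd : Dense V) :
    ∀ᶠ x in residual X, Dense {y | (x, y) ∈ V} := by
  have h : ∀ B ∈ TopologicalSpace.countableBasis Y,
      ∀ᶠ x in residual X, ∃ y ∈ B, (x, y) ∈ V := by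
    intro B hB
    have hop : IsOpen B := TopologicalSpace.isOpen_of_mem_countableBasis hB
    have hne : B.Nonempty := TopologicalSpace.nonempty_of_mem_countableBasis hB
    have he : {x | ∃ y ∈ B, (x, y) ∈ V} = Prod.fst '' (V ∩ (univ ×ˢ B)) := by
      ext x
      constructor
      · rintro ⟨y, hy, hxy⟩
        exact ⟨(x, y), ⟨hxy, ⟨mem_univ _, hy⟩⟩, rfl⟩
      · rintro ⟨⟨x', y⟩, ⟨hxy, ⟨_, hy⟩⟩, rfl⟩
        exact ⟨y, hy, hxy⟩
    have ho' : IsOpen {x | ∃ y ∈ B, (x, y) ∈ V} := by
      rw [he]
      exact isOpenMap_fst _ (ho.inter (isOpen_univ.prod hop))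
    have hd' : Dense {x | ∃ y ∈ B, (x, y) ∈ V} := by
      rw [dense_iff_inter_open]
      intro U hU hUne
      obtain ⟨x, hx⟩ := hUne
      obtain ⟨y, hy⟩ := hne
      obtain ⟨⟨x', y'⟩, hp, hpV⟩ := hd.inter_open_nonempty (U ×ˢ B) (hU.prod hop) ⟨(x, y), hx, hy⟩
      exact ⟨x', hp.1, y', hp.2, hpV⟩
    exact residual_of_dense_open ho' hd'
  have h2 : ∀ᶠ x in residual X, ∀ B (_ : B ∈ TopologicalSpace.countableBasis Y),
      ∃ y ∈ B, (x, y) ∈ V :=
    (eventually_countable_ball (TopologicalSpace.countable_countableBasis Y)).2 h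
  filter_upwards [h2] with x hx
  rw [dense_iff_inter_open]
  intro U hU hUne
  obtain ⟨y, hy⟩ := hUne
  obtain ⟨B, hB, hyB, hBU⟩ :=
    (TopologicalSpace.isBasis_countableBasis Y).exists_subset_of_mem_open hy hU
  obtain ⟨y', hy', hV⟩ := hx B hB
  exact ⟨y', hBU hy', hV⟩

/-- density is preserved by preimages under maps with continuous local sections -/
theorem dense_preimage_sec {X Y : Type} [TopologicalSpace X] [TopologicalSpace Y] (f : X → Y)
    {s : Set Y} (hs : Dense s)
    (h : ∀ x : X, ∃ σ : Y → X, Continuous σ ∧ σ (f x) = x ∧ ∀ y, f (σ y) = y) :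
    Dense (f ⁻¹' s) := by
  rw [dense_iff_inter_open]
  rintro U hU ⟨x, hx⟩
  obtain ⟨σ, hσ, h1, h2⟩ := h x
  obtain ⟨y, hy, hys⟩ := hs.inter_open_nonempty (σ ⁻¹' U) (hU.preimage hσ)
    ⟨f x, by rw [mem_preimage, h1]; exact hx⟩
  refine ⟨σ y, hy, ?_⟩
  rw [mem_preimage, h2]
  exact hys

theorem ku_dc {α : Type} (P : ℕ → α → Prop) (R : ℕ → α → α → Prop) (a : α) (ha : P 0 a)
    (h : ∀ n x, P n x → ∃ y, P (n + 1) y ∧ R n x y) :
    ∃ f : ℕ → α, (∀ n, P n (f n)) ∧ ∀ n, R n (f n) (f (n + 1)) := by
  choose! g hg using h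
  let f : ℕ → α := fun n => Nat.rec a (fun n x => g n x) n
  have hf : ∀ n, P n (f n) := by
    intro n
    induction n with
    | zero => exact ha
    | succ n ih => exact (hg n (f n) ih).1
  exact ⟨f, hf, fun n => (hg n (f n) (hf n)).2⟩

theorem ku_cyl {U : Set (ℕ → Bool)} (hU : IsOpen U) {y : ℕ → Bool} (hy : y ∈ U) :
    ∃ n, cyl (pre y n) ⊆ U := by
  obtain ⟨t, ht, hyt, htU⟩ :=
    (PiNat.isTopologicalBasis_cylinders (fun _ : ℕ => Bool)).exists_subset_of_mem_open hy hU
  obtain ⟨x, n, rfl⟩ := ht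
  refine ⟨n, fun z hz => htU ?_⟩
  have hlen : (pre y n).length = n := by simp [pre]
  have hz' : pre z n = pre y n := by
    have h1 : pre z (pre y n).length = pre y n := hz
    rwa [hlen] at h1
  intro i hi
  have h2 : z i = y i := by
    have h3 : (pre z n)[i]? = (pre y n)[i]? := by rw [hz']
    simpa [pre, List.getElem?_map, List.getElem?_range hi] using h3
  rw [h2]
  exact hyt i hi

/-- first `k` coordinates from `z`, the others from `w` -/
def mg {C : Type} (k : ℕ) (z w : ℕ → C) : ℕ → C := fun n => if n < k then z n else w n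

theorem mg_continuous {C : Type} [TopologicalSpace C] (k : ℕ) (z : ℕ → C) :
    Continuous (mg k z) := by
  refine continuous_pi fun n => ?_
  by_cases h : n < k
  · simpa [mg, h] using continuous_const
  · simpa [mg, h] using continuous_apply n

/-- **product lemma** for sequences -/
theorem product_lemma_nat (V : ℕ → Set (ℕ → ℕ → Bool))
    (ho : ∀ k, IsOpen (V k)) (hd : ∀ k, Dense (V k)) (B : ℕ → Set (ℕ → Bool))
    (hB : ∀ i, ENM (B i) []) : ∃ z : ℕ → ℕ → Bool, (∀ i, z i ∈ B i) ∧ ∀ k, z ∈ V k := by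
  classical
  let P : ℕ → (ℕ → ℕ → Bool) × Set (ℕ → ℕ → Bool) → Prop := fun k p =>
    (∀ i < k, p.1 i ∈ B i) ∧ (∀ j, Dense {w | mg k p.1 w ∈ V j}) ∧ IsOpen p.2 ∧
      ∃ w, mg k p.1 w ∈ p.2
  let R : ℕ → (ℕ → ℕ → Bool) × Set (ℕ → ℕ → Bool) → (ℕ → ℕ → Bool) × Set (ℕ → ℕ → Bool) →
      Prop := fun k p q => (∀ i < k, q.1 i = p.1 i) ∧ closure q.2 ⊆ p.2 ∩ V k
  have h0 : P 0 (fun _ _ => false, univ) := by
    refine ⟨fun i hi => absurd hi (Nat.not_lt_zero i), fun j => ?_, isOpen_univ,
      ⟨fun _ _ => false, mem_univ _⟩⟩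
    have : {w | mg 0 (fun _ _ => false) w ∈ V j} = V j := by
      ext w
      have : mg 0 (fun _ _ => false) w = w := by funext n; simp [mg]
      simp only [mem_ofPred_eq, this]
    rw [this]
    exact hd j
  have hstep : ∀ n x, P n x → ∃ y, P (n + 1) y ∧ R n x y := by
    rintro k ⟨z, W⟩ ⟨h1, h2, h3, w1, hw1⟩
    simp only at h1 h2 h3 hw1
    -- a point in the next open set
    obtain ⟨w0, hw0, hw0V⟩ := (h2 k).inter_open_nonempty _ (h3.preimage (mg_continuous k z))
      ⟨w1, hw1⟩
    have hmem : mg k z w0 ∈ W ∩ V k := ⟨hw0, hw0V⟩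
    obtain ⟨W', hW'n, hW'c⟩ : ∃ W' ∈ 𝓝 (mg k z w0), closure W' ⊆ W ∩ V k := by
      obtain ⟨t, ht, htc, hts⟩ := exists_mem_nhds_isClosed_subset ((h3.inter (ho k)).mem_nhds hmem)
      exact ⟨t, ht, by rw [htc.closure_eq]; exact hts⟩
    let W2 : Set (ℕ → ℕ → Bool) := interior W'
    have hW2o : IsOpen W2 := isOpen_interior
    have hW2m : mg k z w0 ∈ W2 := mem_interior_iff_mem_nhds.2 hW'n
    have hW2c : closure W2 ⊆ W ∩ V k := (closure_mono interior_subset).trans hW'c
    -- the map (c, w) ↦ mg (k+1) (update z k c) w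
    let F : (ℕ → Bool) × (ℕ → ℕ → Bool) → (ℕ → ℕ → Bool) :=
      fun p => Function.update p.2 k p.1
    have hF : Continuous F := continuous_snd.update k continuous_fst
    have hFm : ∀ c w, mg (k + 1) (Function.update z k c) w = mg k z (F (c, w)) := by
      intro c w
      funext n
      rcases lt_trichotomy n k with hlt | heq | hgt
      · have : n < k + 1 := by omega
        simp [mg, F, hlt, this, Function.update_of_ne hlt.ne]
      · subst heq
        simp [mg, F]
      · have h5 : ¬ n < k + 1 := by omega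
        have h6 : ¬ n < k := by omega
        simp [mg, F, h5, h6, Function.update_of_ne hgt.ne']
    have hR : ∀ j, ∀ᶠ c in residual (ℕ → Bool),
        Dense {w | mg (k + 1) (Function.update z k c) w ∈ V j} := by
      intro j
      have hSo : IsOpen {w | mg k z w ∈ V j} := (ho j).preimage (mg_continuous k z)
      have hSd := h2 j
      have hFo : IsOpen (F ⁻¹' {w | mg k z w ∈ V j}) := hSo.preimage hF
      have hFd : Dense (F ⁻¹' {w | mg k z w ∈ V j}) := by
        refine dense_preimage_sec F hSd ?_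
        rintro ⟨c0, v0⟩
        refine ⟨fun w' => (w' k, Function.update w' k (v0 k)), ?_, ?_, ?_⟩
        · exact (continuous_apply k).prodMk (continuous_id.update k continuous_const)
        · simp [F]
        · intro y
          simp [F]
      have := kuratowski_ulam hFo hFd
      filter_upwards [this] with c hc
      have he : {w | mg (k + 1) (Function.update z k c) w ∈ V j} =
          {y | (c, y) ∈ F ⁻¹' {w | mg k z w ∈ V j}} := by
        ext w
        simp only [mem_ofPred_eq, mem_preimage, hFm]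
      rw [he]
      exact hc
    have hRall : ∀ᶠ c in residual (ℕ → Bool), ∀ j,
        Dense {w | mg (k + 1) (Function.update z k c) w ∈ V j} :=
      eventually_countable_forall.2 hR
    -- the open set of c
    have hGc : Continuous fun c : ℕ → Bool => mg k z (F (c, w0)) :=
      (mg_continuous k z).comp (hF.comp (continuous_id.prodMk continuous_const))
    have hGo : IsOpen {c : ℕ → Bool | mg k z (F (c, w0)) ∈ W2} := hW2o.preimage hGc
    have hGm : w0 k ∈ {c : ℕ → Bool | mg k z (F (c, w0)) ∈ W2} := by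
      have : F (w0 k, w0) = w0 := by simp [F]
      simp only [mem_ofPred_eq, this]
      exact hW2m
    obtain ⟨n, hn⟩ := ku_cyl hGo hGm
    have hnm := hB k (pre (w0 k) n) (List.nil_prefix)
    have hex : ∃ c, c ∈ B k ∩ cyl (pre (w0 k) n) ∧
        ∀ j, Dense {w | mg (k + 1) (Function.update z k c) w ∈ V j} := by
      by_contra hcon
      push Not at hcon
      apply hnm
      have hsub : {c | ∀ j, Dense {w | mg (k + 1) (Function.update z k c) w ∈ V j}} ⊆
          (B k ∩ cyl (pre (w0 k) n))ᶜ := by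
        intro c hc hc2
        obtain ⟨j, hj⟩ := hcon c hc2
        exact hj (hc j)
      exact Filter.mem_of_superset hRall hsub
    obtain ⟨c, ⟨hcB, hcn⟩, hcd⟩ := hex
    refine ⟨(Function.update z k c, W2), ⟨?_, hcd, hW2o, ⟨w0, ?_⟩⟩, ?_, hW2c⟩
    · intro i hi
      simp only
      rcases Nat.lt_succ_iff_lt_or_eq.1 hi with hlt | heq
      · rw [Function.update_of_ne hlt.ne]
        exact h1 i hlt
      · subst heq
        rw [Function.update_self]
        exact hcB
    · simp only
      rw [hFm]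
      exact hn hcn
    · intro i hi
      simp only
      rw [Function.update_of_ne hi.ne]
  obtain ⟨f, hfP, hfR⟩ := ku_dc P R _ h0 hstep
  -- stability
  have hstab : ∀ i k, i < k → (f k).1 i = (f (i + 1)).1 i := by
    intro i k hik
    induction k with
    | zero => omega
    | succ k ih =>
      rcases Nat.lt_succ_iff_lt_or_eq.1 hik with hlt | heq
      · rw [(hfR k).1 i hlt, ih hlt]
      · subst heq
        rfl
  let z : ℕ → ℕ → Bool := fun i => (f (i + 1)).1 i
  have hWanti : ∀ j k, j ≤ k → (f k).2 ⊆ (f j).2 := by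
    intro j k hjk
    induction k with
    | zero =>
      have : j = 0 := by omega
      subst this
      exact subset_rfl
    | succ k ih =>
      rcases Nat.lt_succ_iff_lt_or_eq.1 (Nat.lt_succ_of_le hjk) with hlt | heq
      · exact (subset_closure.trans ((hfR k).2.trans inter_subset_left)).trans
          (ih (Nat.lt_succ_iff.1 hlt))
      · subst heq
        exact subset_rfl
  refine ⟨z, fun i => (hfP (i + 1)).1 i (Nat.lt_succ_self i), fun j => ?_⟩
  have hcl : z ∈ closure (f (j + 1)).2 := by
    choose w hw using fun k => (hfP k).2.2.2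
    have hlim : Tendsto (fun k => mg k (f k).1 (w k)) atTop (𝓝 z) := by
      rw [tendsto_pi_nhds]
      intro i
      refine tendsto_const_nhds.congr' ?_
      filter_upwards [eventually_gt_atTop i] with k hk
      simp only [mg, hk, if_true]
      exact (hstab i k hk).symm
    refine mem_closure_of_tendsto hlim ?_
    filter_upwards [eventually_ge_atTop (j + 1)] with k hk
    exact hWanti (j + 1) k hk (hw k)
  exact ((hfR j).2 hcl).2

/-- **product lemma** -/
theorem product_lemma {ι κ : Type} [Countable ι] [Countable κ] (V : κ → Set (ι → ℕ → Bool))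
    (ho : ∀ k, IsOpen (V k)) (hd : ∀ k, Dense (V k)) (B : ι → Set (ℕ → Bool))
    (hB : ∀ i, ENM (B i) []) : ∃ z : ι → ℕ → Bool, (∀ i, z i ∈ B i) ∧ ∀ k, z ∈ V k := by
  classical
  rcases isEmpty_or_nonempty ι with hι | ⟨⟨i0⟩⟩
  · refine ⟨fun i => (hι.false i).elim, fun i => (hι.false i).elim, fun k => ?_⟩
    obtain ⟨z, hz⟩ := (hd k).nonempty
    have : (fun i => (hι.false i).elim : ι → ℕ → Bool) = z := by
      funext i
      exact (hι.false i).elim
    rw [this]
    exact hz
  obtain ⟨e, he⟩ := Countable.exists_injective_nat ι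
  obtain ⟨g, hg⟩ := exists_surjective_nat (Option κ)
  let ρ : (ℕ → ℕ → Bool) → (ι → ℕ → Bool) := fun z => z ∘ e
  have hρ : Continuous ρ := continuous_pi fun i => continuous_apply (e i)
  let U : Option κ → Set (ι → ℕ → Bool) := fun o => o.elim univ V
  have hUo : ∀ o, IsOpen (U o) := by
    rintro (_ | k)
    · exact isOpen_univ
    · exact ho k
  have hUd : ∀ o, Dense (U o) := by
    rintro (_ | k)
    · exact dense_univ
    · exact hd k
  have hsec : ∀ x : ℕ → ℕ → Bool, ∃ σ : (ι → ℕ → Bool) → (ℕ → ℕ → Bool),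
      Continuous σ ∧ σ (ρ x) = x ∧ ∀ y, ρ (σ y) = y := by
    intro x
    refine ⟨fun u => Function.extend e u x, ?_, ?_, ?_⟩
    · refine continuous_pi fun n => ?_
      by_cases hn : ∃ i, e i = n
      · obtain ⟨i, rfl⟩ := hn
        simpa [he.extend_apply] using continuous_apply i
      · simpa [Function.extend_apply' _ _ _ hn] using continuous_const
    · funext n
      change Function.extend e (ρ x) x n = x n
      by_cases hn : ∃ i, e i = n
      · obtain ⟨i, rfl⟩ := hn
        rw [he.extend_apply]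
        rfl
      · rw [Function.extend_apply' _ _ _ hn]
    · intro y
      funext i
      exact he.extend_apply _ _ _
  obtain ⟨z, hz1, hz2⟩ := product_lemma_nat (fun n => ρ ⁻¹' (U (g n)))
    (fun n => (hUo (g n)).preimage hρ) (fun n => dense_preimage_sec ρ (hUd (g n)) hsec)
    (Function.extend e B (fun _ => B i0)) (by
      intro n
      by_cases hn : ∃ i, e i = n
      · obtain ⟨i, rfl⟩ := hn
        rw [he.extend_apply]
        exact hB i
      · rw [Function.extend_apply' _ _ _ hn]
        exact hB i0)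
  refine ⟨ρ z, fun i => ?_, fun k => ?_⟩
  · have h1 := hz1 (e i)
    rw [he.extend_apply] at h1
    exact h1
  · obtain ⟨n, hn⟩ := hg (some k)
    have := hz2 n
    rw [hn] at this
    exact this

end ME
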